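import Pool.Agent.W300.FT.Stm

set_option autoImplicit false

/-! FT-LOC2: locality (S_LOC2) and finitary maps (S_LOC4) -/

namespace Pool.Agent.W961.FT
open MeasureTheory ProbabilityTheory Pool.Agent.W300.FT

theorem mix_congr {V : Type} (N : Set V) (y y' : V → unitInterval) (h : ∀ u ∈ N, y u = y' u)
    (p : V → unitInterval) : mix N y p = mix N y' p := by
  funext u
  unfold mix
  by_cases hu : u ∈ N
  · simp [hu, h u hu]
  · simp [hu]

theorem loc2 : S_LOC2 := by
  intro V G F m v y y' h
  have hm : ∀ p, mix (Bal G m v) y p = mix (Bal G m v) y' p := mix_congr _ _ _ h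
  refine ⟨?_, ?_⟩
  · unfold Loc
    simp only [Set.mem_ofPred_eq, hm]
  · unfold Gf
    funext k
    simp only [hm]

instance instPI (V : Type) : IsProbabilityMeasure (PI V) := by
  unfold PI
  infer_instance

/-- the labellings for which the value at `v` is determined by the ball of radius `r` -/
def AA {V : Type} (G : SimpleGraph V) (F : (V → unitInterval) → V → K → Bool) (v : V) (r : ℕ) :
    Set (V → unitInterval) :=
  {y | ∀ y' : V → unitInterval, (∀ u : V, G.dist v u ≤ r → y' u = y u) → F y' v = F y v}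

theorem AA_mono {V : Type} (G : SimpleGraph V) (F : (V → unitInterval) → V → K → Bool) (v : V) :
    Monotone (AA G F v) := by
  intro r s hrs y hy y' h
  exact hy y' (fun u hu => h u (hu.trans hrs))

theorem AA_sub {V : Type} (G : SimpleGraph V) (F : (V → unitInterval) → V → K → Bool) (v : V)
    (r : ℕ) : AA G F v r ⊆ Loc G F r v := by
  intro y hy
  have h : ∀ p : V → unitInterval, F (mix (Bal G r v) y p) v = F y v := by
    intro p
    apply hy
    intro u hu
    have : u ∈ Bal G r v := hu
    unfold mix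
    simp [this]
  unfold Loc
  simp only [Set.mem_ofPred_eq, h]
  exact Filter.Eventually.of_forall (fun _ => trivial)

theorem loc4 (h1 : S_LOC1) : S_LOC4 := by
  intro V G F hV hF v hfin ε hε
  have hU : PI V (⋃ r, AA G F v r) = 1 := by
    have : (⋃ r, AA G F v r) =ᵐ[PI V] Set.univ := by
      rw [Filter.eventuallyEq_univ]
      filter_upwards [hfin] with y hy
      obtain ⟨r, hr⟩ := hy
      exact Set.mem_iUnion.mpr ⟨r, hr⟩
    rw [measure_congr this, measure_univ]
  have hS : ⨆ r, PI V (AA G F v r) = 1 := by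
    rw [← (AA_mono G F v).measure_iUnion, hU]
  set δ : ENNReal := min ε 1 with hδ
  have hδ0 : 0 < δ := lt_min hε one_pos
  have hδ1 : δ ≤ 1 := min_le_right _ _
  have hlt : 1 - δ < ⨆ r, PI V (AA G F v r) := by
    rw [hS]
    exact ENNReal.sub_lt_self ENNReal.one_ne_top one_ne_zero hδ0.ne'
  obtain ⟨r, hr⟩ := lt_iSup_iff.mp hlt
  refine ⟨r, ?_⟩
  have hmeas : MeasurableSet (Loc G F r v) := (h1 V G F hV hF r v).1
  have hle : PI V (AA G F v r) ≤ PI V (Loc G F r v) := measure_mono (AA_sub G F v r)
  have hL : 1 - δ < PI V (Loc G F r v) := hr.trans_le hle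
  rw [prob_compl_eq_one_sub hmeas]
  have hfin' : PI V (Loc G F r v) ≤ 1 := prob_le_one
  have hδt : δ ≠ ⊤ := ne_top_of_le_ne_top ENNReal.one_ne_top hδ1
  have hsum : 1 < δ + PI V (Loc G F r v) := by
    have h2 := ENNReal.add_lt_add_right hδt hL
    rw [tsub_add_cancel_of_le hδ1] at h2
    rwa [add_comm] at h2
  have hkey : 1 - PI V (Loc G F r v) < δ := ENNReal.sub_lt_of_lt_add hfin' hsum
  exact hkey.trans_le (min_le_left _ _)

end Pool.Agent.W961.FT
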